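import Mathlib
import Pool.Agent.N357.K4Final

set_option autoImplicit false

/-!
# MP_c5be19_co: the largest complete class of matroids which omits `M(K_4)`

`𝒦`, the class of the finite matroids without `M(K_4)`-minor, is a complete class; hence it is the
largest complete class omitting `M(K_4)`.
-/

namespace Pool.Agent.Results.MP_c5be19_co.LargestComplete

open Set Matroid
open Pool.Agent.N357.K4 (IsMK4 Iso IsTruncation Linked)

/-- A class of matroids. -/
abbrev MatroidClass : Type 1 := ∀ α : Type, Matroid α → Prop

/-- A *complete class*: a class of finite matroids which is closed under isomorphism, restriction,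
contraction, duality, direct sums, truncation, and induction through directed graphs. The subsets
of `A` which are `Linked` (joined by pairwise vertex-disjoint directed paths, length zero allowed)
onto independent sets of `M₀` form the matroid on `A` induced from `M₀` by the digraph `Γ`. -/
structure IsComplete (C : MatroidClass) : Prop where
  finite : ∀ {α : Type} {M : Matroid α}, C α M → M.Finite
  iso : ∀ {α β : Type} {M : Matroid α} {N : Matroid β}, C α M → Iso M N → C β N
  restriction : ∀ {α : Type} {M : Matroid α} (R : Set α), R ⊆ M.E → C α M → C α (M ↾ R)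
  contraction : ∀ {α : Type} {M : Matroid α} (X : Set α), C α M → C α (M ／ X)
  dual : ∀ {α : Type} {M : Matroid α}, C α M → C α M✶
  sum : ∀ {α β : Type} {M : Matroid α} {N : Matroid β}, C α M → C β N → C (α ⊕ β) (M.sum N)
  truncation : ∀ {α : Type} {M : Matroid α}, C α M → ¬ M.IsBase ∅ →
    ∃ T : Matroid α, IsTruncation M T ∧ C α T
  induction : ∀ {T : Type} [Finite T] (Γ : T → T → Prop) (M₀ : Matroid T) (A : Set T), C T M₀ →
    ∃ N : Matroid T, (N.E = A ∧ ∀ I : Set T, N.Indep I ↔ I ⊆ A ∧ Linked Γ M₀ I) ∧ C T N

/-- The class contains no matroid isomorphic to `M(K_4)`. -/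
def OmitsMK4 (C : MatroidClass) : Prop := ∀ {α : Type} {N : Matroid α}, IsMK4 N → ¬ C α N

/-- `𝒦`: the finite matroids with no minor isomorphic to `M(K_4)`. -/
def K : MatroidClass := fun α M => M.Finite ∧ ∀ N : Matroid α, N ≤m M → ¬ IsMK4 N

/-- `C` is the largest complete class which contains no copy of `M(K_4)`. -/
def IsLargest (C : MatroidClass) : Prop :=
  IsComplete C ∧ OmitsMK4 C ∧
    ∀ C' : MatroidClass, IsComplete C' → OmitsMK4 C' →
      ∀ {α : Type} {M : Matroid α}, C' α M → C α M

open Pool.Agent.N357.K4

theorem K_iff {α : Type} {M : Matroid α} : K α M ↔ M.Finite ∧ ¬ HasK4 M := by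
  rw [K, hasK4_iff]
  push Not
  rfl

theorem isComplete_K : IsComplete K where
  finite := fun h => h.1
  iso := by
    intro α β M N h hMN
    rw [K_iff] at h ⊢
    refine ⟨?_, fun h' => h.2 (hMN.hasK4 h')⟩
    obtain ⟨e, -⟩ := hMN
    have := h.1
    have h1 : Finite M.E := M.ground_finite
    have h2 : Finite N.E := Finite.of_equiv _ e
    exact ⟨h2⟩
  restriction := by
    intro α M R hR h
    rw [K_iff] at h ⊢
    have := h.1
    exact ⟨⟨M.ground_finite.subset hR⟩, fun h' => h.2 h'.of_restrict⟩
  contraction := by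
    intro α M X h
    rw [K_iff] at h ⊢
    have := h.1
    exact ⟨⟨M.ground_finite.subset sdiff_subset⟩, fun h' => h.2 h'.of_contract⟩
  dual := by
    intro α M h
    rw [K_iff] at h ⊢
    have := h.1
    exact ⟨⟨M.ground_finite⟩, fun h' => h.2 (hasK4_dual_iff.1 h')⟩
  sum := by
    intro α β M N hM hN
    rw [K_iff] at hM hN ⊢
    have := hM.1
    have := hN.1
    refine ⟨⟨?_⟩, fun h' => ?_⟩
    · rw [sum_ground]
      exact (M.ground_finite.image _).union (N.ground_finite.image _)
    · rcases h'.of_sum with h1 | h1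
      · exact hM.2 h1
      · exact hN.2 h1
  truncation := by
    intro α M h hM
    rw [K_iff] at h
    have := h.1
    obtain ⟨T, hT⟩ := exists_truncation M hM
    refine ⟨T, hT, ?_⟩
    rw [K_iff]
    refine ⟨⟨?_⟩, fun h' => h.2 (hT.hasK4 h')⟩
    rw [hT.1]
    exact M.ground_finite
  induction := by
    intro T _ Γ M₀ A h
    rw [K_iff] at h
    obtain ⟨N, hN1, hN2, hN3⟩ := exists_induced Γ M₀ A
    refine ⟨N, ⟨hN1, hN2⟩, ?_⟩
    rw [K_iff]
    exact ⟨⟨toFinite _⟩, fun h' => h.2 (hN3 h')⟩

/-- **Main theorem**: the class `𝒦` of the finite matroids without `M(K_4)`-minor is complete; it is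
the largest complete class containing no copy of `M(K_4)`. (And `M(K_4)` exists.) -/
theorem result : IsLargest K ∧ ∃ N : Matroid (Fin 6), IsMK4 N := by
  refine ⟨⟨isComplete_K, ?_, ?_⟩, exists_isMK4⟩
  · intro α N hN h
    exact h.2 N IsMinor.refl hN
  · intro C hC hO α M hM
    refine ⟨hC.finite hM, fun N hN hN4 => hO hN4 ?_⟩
    obtain ⟨X, D, rfl⟩ := hN
    rw [delete_eq_restrict]
    exact hC.restriction _ sdiff_subset (hC.contraction X hM)

end Pool.Agent.Results.MP_c5be19_co.LargestComplete
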